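import Pool.Agent.K3h16.MI.Stm

open MeasureTheory Set Filter Topology

namespace Pool.Agent.K3h40.MI

open Pool.Agent.K3h16.MI

variable {m n : ℕ}

theorem kdet_symm (α : ℝ) (v w : Fin m → E n) (r : E n) : kdet α v w r = kdet α w v r := by
  unfold kdet
  rw [← Matrix.det_transpose]
  congr 1
  ext i j
  simp only [Matrix.transpose_apply, Matrix.of_apply]
  rw [real_inner_comm (w i) (v j), real_inner_comm (v j) r, real_inner_comm (w i) r]
  ring

theorem kdet_right (α : ℝ) (v e w : Fin m → E n) (r : E n) (A : Matrix (Fin m) (Fin m) ℝ)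
    (hw : ∀ b, w b = ∑ c, A c b • e c) : kdet α v w r = A.det * kdet α v e r := by
  unfold kdet
  rw [mul_comm, ← Matrix.det_mul]
  congr 1
  ext i j
  rw [Matrix.mul_apply, Matrix.of_apply, hw j]
  simp only [inner_sum, inner_smul_right, Matrix.of_apply]
  rw [Finset.mul_sum, Finset.sum_div, Finset.mul_sum, ← Finset.sum_add_distrib]
  refine Finset.sum_congr rfl fun c _ => ?_
  ring

theorem kdet_left (α : ℝ) (v e w : Fin m → E n) (r : E n) (A : Matrix (Fin m) (Fin m) ℝ)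
    (hw : ∀ b, w b = ∑ c, A c b • e c) : kdet α w v r = A.det * kdet α e v r := by
  rw [kdet_symm, kdet_right α v e w r A hw, kdet_symm]

theorem sqrt_pairing (e w : Fin m → E n) (he : Orthonormal ℝ e) (A : Matrix (Fin m) (Fin m) ℝ)
    (hA : 0 < A.det) (hw : ∀ b, w b = ∑ c, A c b • e c) : √ (pairing w w) = A.det := by
  have h1 : pairing w w = A.det ^ 2 := by
    unfold pairing
    have h2 : (Matrix.of fun i j => inner ℝ (w i) (w j)) = A.transpose * A := by
      ext i j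
      rw [Matrix.of_apply, hw i, hw j, he.inner_sum]
      simp [Matrix.mul_apply]
    rw [h2, Matrix.det_mul, Matrix.det_transpose, sq]
  rw [h1, Real.sqrt_sq hA.le]

theorem t_KD : S_KD := by
  intro m n e₁ e₂ w₁ w₂ he₁ he₂ hw₁ hw₂
  obtain ⟨A, hA, hAw⟩ := hw₁
  obtain ⟨B, hB, hBw⟩ := hw₂
  rw [sqrt_pairing e₁ w₁ he₁ A hA hAw, sqrt_pairing e₂ w₂ he₂ B hB hBw]
  refine ⟨hA, fun α r => ?_⟩
  rw [kdet_left α w₂ e₁ w₁ r A hAw, kdet_right α e₁ e₂ w₂ r B hBw]
  ring

theorem t_KD1 : S_KD1 := by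
  intro m n e w he hw
  obtain ⟨A, hA, hAw⟩ := hw
  rw [sqrt_pairing e w he A hA hAw]
  refine ⟨hA, fun w₁ α r => kdet_right α w₁ e w r A hAw, fun l => ?_⟩
  rw [mul_comm, ← Matrix.det_mul]
  congr 1
  ext i j
  rw [Matrix.mul_apply, Matrix.of_apply, hAw j, map_sum]
  refine Finset.sum_congr rfl fun c _ => ?_
  rw [map_smul, Matrix.of_apply, smul_eq_mul]
  ring

end Pool.Agent.K3h40.MI
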