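import Pool.Agent.K3h16.MI.Stm

open MeasureTheory Set Filter Topology Metric

namespace Pool.Agent.K3h40.MI

open Pool.Agent.K3h16.MI

/-- polar coordinates, all functions -/
theorem polar_prod {m : ℕ} [Nontrivial (E m)] (f : E m → ℂ) :
    ∫ x, f x = ∫ p : sphere (0 : E m) 1 × Ioi (0 : ℝ), f (p.2.1 • p.1.1)
      ∂((volume : Measure (E m)).toSphere.prod (.volumeIoiPow (Module.finrank ℝ (E m) - 1))) := by
  calc ∫ x, f x = ∫ x : ({(0)}ᶜ : Set (E m)), f x.1 ∂((volume : Measure (E m)).comap (↑)) := by
        rw [integral_subtype_comap (measurableSet_singleton _).compl fun x ↦ f x,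
          restrict_compl_singleton]
    _ = _ := by
        have h := (volume : Measure (E m)).measurePreserving_homeomorphUnitSphereProd.integral_comp
          (Homeomorph.measurableEmbedding _)
          (fun p : sphere (0 : E m) 1 × Ioi (0 : ℝ) => f (p.2.1 • p.1.1))
        rw [← h]
        congr 1
        funext x
        have hx : ‖(x : E m)‖ ≠ 0 := norm_ne_zero_iff.2 x.2
        congr 1
        simp only [homeomorphUnitSphereProd_apply_fst_coe, homeomorphUnitSphereProd_apply_snd_coe]
        rw [smul_smul, mul_inv_cancel₀ hx, one_smul]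

theorem integral_Ioi_pow {d : ℕ} (g : ℝ → ℂ) :
    ∫ x : Ioi (0 : ℝ), g x ∂(Measure.volumeIoiPow d) = ∫ t in Ioi (0 : ℝ), (t : ℂ) ^ d * g t := by
  simp only [Measure.volumeIoiPow, ENNReal.ofReal]
  rw [integral_withDensity_eq_integral_smul,
    integral_subtype_comap measurableSet_Ioi fun a ↦ Real.toNNReal (a ^ d) • g a,
    setIntegral_congr_fun measurableSet_Ioi fun x hx ↦ ?_]
  · rw [NNReal.smul_def, Real.coe_toNNReal _ (pow_nonneg (le_of_lt hx) _), Complex.real_smul]
    push_cast
    rfl
  · exact (measurable_subtype_coe.pow_const _).real_toNNReal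

theorem t_POLAR : S_POLAR := by
  intro m hm F hF
  have : Nonempty (Fin m) := ⟨⟨0, hm⟩⟩
  have hnt : Nontrivial (E m) := inferInstance
  have hfr : Module.finrank ℝ (E m) = m := by simp
  set G : E m → ℂ := fun θ => ∫ t in Ioi (0 : ℝ), (t : ℂ) ^ (m - 1) * F (t • θ) with hG
  have hGs : ∀ (r : ℝ) (θ : E m), 0 < r → G (r • θ) = ((r : ℂ) ^ m)⁻¹ * G θ := by
    intro r θ hr
    have hrC : (r : ℂ) ≠ 0 := by exact_mod_cast hr.ne'
    have h1 := integral_comp_mul_left_Ioi (fun u : ℝ => ((u : ℂ)) ^ (m - 1) * F (u • θ)) 0 hr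
    rw [mul_zero] at h1
    have h2 : (r : ℂ) ^ (m - 1) * G (r • θ) = ((r⁻¹ : ℝ) : ℂ) * G θ := by
      rw [hG]
      simp only
      rw [← integral_const_mul]
      rw [Complex.real_smul] at h1
      rw [← h1]
      congr 1
      funext t
      push_cast
      rw [smul_smul, mul_comm t r, mul_pow]
      ring
    have h3 : (r : ℂ) ^ m = (r : ℂ) ^ (m - 1) * r := by
      rw [← pow_succ]
      congr 1
      omega
    rw [h3, mul_inv, mul_comm ((r : ℂ) ^ (m - 1))⁻¹, mul_assoc]
    have h4 : (r : ℂ) ^ (m - 1) ≠ 0 := pow_ne_zero _ hrC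
    field_simp
    have h5 : G (r • θ) * (r : ℂ) ^ (m - 1) * r = G θ := by
      have h6 : (r : ℂ) ^ (m - 1) * G (r • θ) * r = ((r⁻¹ : ℝ) : ℂ) * G θ * r := by rw [h2]
      push_cast at h6
      rw [mul_comm ((r : ℂ)⁻¹) (G θ), mul_assoc (G θ), inv_mul_cancel₀ hrC, mul_one] at h6
      rw [← h6]
      ring
    linear_combination h5
  -- the left side
  have hL : ∫ h, F h = ∫ σ : sphere (0 : E m) 1, G σ ∂((volume : Measure (E m)).toSphere) := by
    rw [polar_prod F]
    have hint : Integrable (fun p : sphere (0 : E m) 1 × Ioi (0 : ℝ) => F (p.2.1 • p.1.1))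
        ((volume : Measure (E m)).toSphere.prod (.volumeIoiPow (Module.finrank ℝ (E m) - 1))) := by
      have hmp := (volume : Measure (E m)).measurePreserving_homeomorphUnitSphereProd
      rw [← hmp.integrable_comp_emb (Homeomorph.measurableEmbedding _)]
      have h1 : (fun p : sphere (0 : E m) 1 × Ioi (0 : ℝ) => F (p.2.1 • p.1.1)) ∘
          (homeomorphUnitSphereProd (E m)) = fun x => F x.1 := by
        funext x
        have hx : ‖(x : E m)‖ ≠ 0 := norm_ne_zero_iff.2 x.2
        simp only [Function.comp_apply]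
        congr 1
        simp only [homeomorphUnitSphereProd_apply_fst_coe, homeomorphUnitSphereProd_apply_snd_coe]
        rw [smul_smul, mul_inv_cancel₀ hx, one_smul]
      rw [h1]
      have h2 := (MeasurableEmbedding.subtype_coe
        (measurableSet_singleton (0 : E m)).compl).integrableOn_range_iff_comap
          (f := F) (μ := (volume : Measure (E m)))
      exact h2.1 hF.integrableOn
    rw [integral_prod _ hint]
    refine integral_congr_ae (Eventually.of_forall fun σ => ?_)
    simp only
    rw [integral_Ioi_pow (fun t => F (t • σ.1)), hfr]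
  -- the right side
  have hR : ∫ θ in Ann m, G θ = ∫ σ : sphere (0 : E m) 1, G σ
      ∂((volume : Measure (E m)).toSphere) := by
    have hAnn : MeasurableSet (Ann m) :=
      (measurableSet_le measurable_const measurable_norm).inter
        (measurableSet_le measurable_norm measurable_const)
    rw [← integral_indicator hAnn, polar_prod]
    have h1 : ∀ p : sphere (0 : E m) 1 × Ioi (0 : ℝ), (Ann m).indicator G (p.2.1 • p.1.1) =
        G p.1.1 * (Icc (1 : ℝ) (Real.exp 1)).indicator (fun r => ((r : ℂ) ^ m)⁻¹) p.2.1 := by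
      rintro ⟨⟨σ, hσ⟩, ⟨r, hr⟩⟩
      simp only
      have hr0 : 0 < r := hr
      have hσ1 : ‖σ‖ = 1 := by simpa using hσ
      have hn : ‖r • σ‖ = r := by rw [norm_smul, hσ1, mul_one, Real.norm_of_nonneg hr0.le]
      by_cases h : r ∈ Icc (1 : ℝ) (Real.exp 1)
      · have h' : r • σ ∈ Ann m := by
          unfold Ann
          rw [mem_ofPred_eq, hn]
          exact h
        rw [indicator_of_mem h', indicator_of_mem h, hGs r σ hr0, mul_comm]
      · have h' : r • σ ∉ Ann m := by
          unfold Ann
          rw [mem_ofPred_eq, hn]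
          exact h
        rw [indicator_of_notMem h', indicator_of_notMem h, mul_zero]
    simp only [h1]
    rw [integral_prod_mul (fun σ : sphere (0 : E m) 1 => G σ.1)
      (fun r : Ioi (0 : ℝ) => (Icc (1 : ℝ) (Real.exp 1)).indicator (fun r => ((r : ℂ) ^ m)⁻¹) r.1)]
    have h2 : ∫ r : Ioi (0 : ℝ), (Icc (1 : ℝ) (Real.exp 1)).indicator
        (fun r => ((r : ℂ) ^ m)⁻¹) r.1 ∂(Measure.volumeIoiPow (Module.finrank ℝ (E m) - 1)) = 1 := by
      rw [integral_Ioi_pow (fun r => (Icc (1 : ℝ) (Real.exp 1)).indicator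
        (fun r => ((r : ℂ) ^ m)⁻¹) r), hfr]
      have h3 : ∀ t ∈ Ioi (0 : ℝ), (t : ℂ) ^ (m - 1) * (Icc (1 : ℝ) (Real.exp 1)).indicator
          (fun r => ((r : ℂ) ^ m)⁻¹) t =
          (Icc (1 : ℝ) (Real.exp 1)).indicator (fun t : ℝ => ((t⁻¹ : ℝ) : ℂ)) t := by
        intro t ht
        have ht0 : (t : ℂ) ≠ 0 := by
          have : (0 : ℝ) < t := ht
          exact_mod_cast this.ne'
        by_cases h : t ∈ Icc (1 : ℝ) (Real.exp 1)
        · rw [indicator_of_mem h, indicator_of_mem h]
          have h3 : (t : ℂ) ^ m = (t : ℂ) ^ (m - 1) * t := by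
            rw [← pow_succ]
            congr 1
            omega
          rw [h3]
          push_cast
          field_simp
        · rw [indicator_of_notMem h, indicator_of_notMem h, mul_zero]
      rw [setIntegral_congr_fun measurableSet_Ioi h3]
      rw [setIntegral_indicator measurableSet_Icc]
      have h4 : Ioi (0 : ℝ) ∩ Icc (1 : ℝ) (Real.exp 1) = Icc (1 : ℝ) (Real.exp 1) := by
        rw [inter_eq_right]
        intro x hx
        exact lt_of_lt_of_le one_pos hx.1
      rw [h4, integral_Icc_eq_integral_Ioc,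
        ← intervalIntegral.integral_of_le (by simpa using Real.add_one_le_exp 1 |>.trans' (by norm_num)),
        intervalIntegral.integral_ofReal]
      rw [integral_inv_of_pos one_pos (Real.exp_pos 1)]
      simp
    rw [h2, mul_one]
  rw [hL, ← hR]

end Pool.Agent.K3h40.MI
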